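import Pool.Agent.U160.FD.ChowMain
import Pool.Agent.H373R2.T7.SupLiou

/-!
# The Möbius function and prime tuples, for all the shifts near the dilates of almost every point of a measure with
# Fourier decay

Definitions used, in `Pool.Agent.U160.FD` (file `Defs`): `FourierDecay μ`: the Fourier transform
`μ^(t) = ∫ exp(i t x) dμ(x)` of `μ` is `O(t ^ (-β))` for some `β > 0`; `FourierSmall μ`: there are `h ≥ 1`, `c` and `K` with
`∫_0^T |μ^(t)| ^ (2 h) dt ≤ K (log T) ^ c` for all `T ≥ 2`.

Method (`Pool.Agent.U160.FD`): the signed sums of `2 h` independent points of `μ` are in an interval of length `r` with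
probability at most `r (log 1 / r) ^ c` up to a constant, by the moment of the Fourier transform; thus the weights
`μ{x : ⌊λ x⌋ = a}` have nearly minimal additive energy of order `h`, they are approximated by finite families (with
multiplicities), and the first moment of the starting files for families of nearly minimal energy
(`Pool.Agent.H373R2.T7.few_e`) bounds the measure of the exceptional points; Borel-Cantelli.
-/

set_option autoImplicit false

namespace Pool.Agent.Results.MP_0bfb7f_nt.FourierDecay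

open MeasureTheory Filter Finset Pool.Agent.U160.FD

/-- The Möbius function on the integers, `0` at the integers `k ≤ 0`. -/
noncomputable def mu (k : ℤ) : ℂ := if 1 ≤ k then ((ArithmeticFunction.moebius k.toNat : ℤ) : ℂ) else 0

/-- The von Mangoldt function on the integers, `0` at the integers `k ≤ 0`. -/
noncomputable def vm (k : ℤ) : ℂ := ((ArithmeticFunction.vonMangoldt k.toNat : ℝ) : ℂ)

/-- For all the integers `b` with `|b - y| ≤ R`, all `1 ≤ a ≤ R`, all `1 ≤ c i ≤ R`, `|d i| ≤ R` (`i < r`) and all `X` with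
`a X ≤ B L`, the sum of `w n * μ (a n + b) * ∏ i, Λ (c i n + d i)` over `n ≤ X` is at most `η`. -/
def Small (r : ℕ) (w : ℕ → ℂ) (y R BL η : ℝ) : Prop :=
  ∀ (a X : ℕ) (b : ℤ) (c : Fin r → ℕ) (d : Fin r → ℤ), |(b : ℝ) - y| ≤ R → 1 ≤ a → (a : ℝ) ≤ R →
    (∀ i, 1 ≤ c i ∧ (c i : ℝ) ≤ R) → (∀ i, |(d i : ℝ)| ≤ R) → (a : ℝ) * X ≤ BL →
    ‖∑ n ∈ Icc 1 X, w n * (mu ((a : ℤ) * n + b) * ∏ i, vm ((c i : ℤ) * n + d i))‖ ≤ η

lemma norm_vm_le (k : ℤ) (M : ℝ) (hM : 1 ≤ M) (hk : (k : ℝ) ≤ M) : ‖vm k‖ ≤ Real.log M := by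
  unfold vm
  rw [Complex.norm_real, Real.norm_eq_abs, abs_of_nonneg ArithmeticFunction.vonMangoldt_nonneg]
  rcases Nat.eq_zero_or_pos k.toNat with h0 | h0
  · rw [h0]
    simp only [ArithmeticFunction.map_zero]
    exact Real.log_nonneg hM
  · refine ArithmeticFunction.vonMangoldt_le_log.trans ?_
    apply Real.log_le_log (by exact_mod_cast h0)
    have h1 : ((k.toNat : ℕ) : ℤ) = k := Int.toNat_of_nonneg (by omega)
    have h2 : ((k.toNat : ℕ) : ℝ) = (k : ℝ) := by exact_mod_cast h1
    rw [h2]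
    exact hk

open Classical in
/-- Let `μ` be a probability measure on the line whose Fourier transform is `O(t ^ (-β))` for some `β > 0`, or
satisfies the weaker condition `FourierSmall`. Let `λ_j` be any sequence with `λ_j ≥ exp (j ^ δ)` for large `j`, for some
`δ > 0`, and let `w_j : ℕ → ℂ` be arbitrary weights bounded by `1`. Then for `μ`-almost every `x`: for all `r`, `B`, `U`,
`W` and all large `j`,

  `|∑ n ≤ X, w_j(n) μ(a n + b) ∏ i < r, Λ(c_i n + d_i)| ≤ λ_j / (log λ_j) ^ U`

for ALL the integers `b` with `|b - λ_j x| ≤ (log λ_j) ^ W`, all `1 ≤ a, c_i ≤ (log λ_j) ^ W`, all the integers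
`|d_i| ≤ (log λ_j) ^ W` and all `X` with `a X ≤ B λ_j`. With `r = 1`, `a = c = 1`, `d = 0` and `w = 1` this is the sum of the
question, with the shift `b` in place of `1`. -/
theorem result (μ : Measure ℝ) [IsProbabilityMeasure μ] (hμ : FourierSmall μ ∨ FourierDecay μ)
    (lam : ℕ → ℝ) (δ : ℝ) (hδ : 0 < δ) (hlam : ∀ᶠ j : ℕ in atTop, Real.exp ((j : ℝ) ^ δ) ≤ lam j)
    (w : ℕ → ℕ → ℂ) (hw : ∀ j n, ‖w j n‖ ≤ 1) :
    ∀ᵐ x ∂μ, ∀ r B U W : ℕ, ∀ᶠ j : ℕ in atTop,
      Small r (w j) (lam j * x) (Real.log (lam j) ^ W) (B * lam j) (lam j / Real.log (lam j) ^ U) := by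
  have hμ' : FourierSmall μ := hμ.elim id FourierDecay.small
  have hexp : Tendsto (fun j : ℕ => Real.exp ((j:ℝ) ^ δ)) atTop atTop :=
    Real.tendsto_exp_atTop.comp ((tendsto_rpow_atTop hδ).comp tendsto_natCast_atTop_atTop)
  have hlamt : Tendsto lam atTop atTop := tendsto_atTop_mono' atTop hlam hexp
  rw [ae_all_iff]; intro r
  rw [ae_all_iff]; intro B
  rw [ae_all_iff]; intro U
  rw [ae_all_iff]; intro W
  -- the weights
  obtain ⟨R, hR⟩ : ∃ R : ℕ → ℕ, R = fun j => ⌊Real.log (lam j) ^ W⌋₊ := ⟨_, rfl⟩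
  obtain ⟨G, hG⟩ : ∃ G : ℕ → (Fin r → ℕ) → (Fin r → ℤ) → ℕ → ℂ, G = fun j c d n =>
    w j n * ∏ i, vm ((c i : ℤ) * n + d i) := ⟨_, rfl⟩
  obtain ⟨Γ, hΓ⟩ : ∃ Γ : ℕ → Finset (ℕ → ℂ), Γ = fun j =>
    ((Fintype.piFinset fun _ : Fin r => Icc 1 (R j)) ×ˢ
      (Fintype.piFinset fun _ : Fin r => Icc (-(R j : ℤ)) (R j))).image (fun cd => G j cd.1 cd.2) := ⟨_, rfl⟩
  have key := chow_main μ hμ' Pool.Agent.H373R2.T7.muC (fun n => by
    unfold Pool.Agent.H373R2.T7.muC
    rw [Complex.norm_intCast]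
    exact_mod_cast ArithmeticFunction.abs_moebius_le_one) Pool.Agent.H373R2.T7.sup_muC lam δ hδ hlam B (2 * r)
    ((2 * W + 1) * r) U W Γ (by
    have hlo : (fun x : ℝ => Real.log x ^ W) =o[atTop] (fun x : ℝ => x) := by
      have := isLittleO_log_rpow_rpow_atTop (s := 1) (W : ℝ) (by norm_num)
      simpa using this
    have hlo1 := hlo.def (c := 1) (by norm_num)
    filter_upwards [hlamt.eventually_ge_atTop (Real.exp 6), hlamt.eventually_ge_atTop (2 * B + 2), hlamt.eventually hlo1]
      with j h1 h2 h3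
    have hl0 : 0 < lam j := (Real.exp_pos 6).trans_le h1
    have hL6 : 6 ≤ Real.log (lam j) := by
      rw [Real.le_log_iff_exp_le hl0]
      exact h1
    have hl7 : 7 ≤ lam j := by
      have := Real.add_one_le_exp (6:ℝ)
      linarith
    rw [Real.norm_eq_abs, Real.norm_eq_abs, abs_of_pos hl0, one_mul] at h3
    obtain ⟨L, hL⟩ : ∃ L, L = Real.log (lam j) := ⟨_, rfl⟩
    have hRj : (R j : ℝ) ≤ L ^ W := by
      rw [hR, hL]
      exact Nat.floor_le (by positivity)
    rw [← hL] at hL6 h3 ⊢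
    have hL1 : 1 ≤ L := by linarith
    have hRl : (R j : ℝ) ≤ lam j := hRj.trans ((le_abs_self _).trans h3)
    constructor
    · rw [hΓ]
      have h4 : (((Fintype.piFinset fun _ : Fin r => Icc 1 (R j)) ×ˢ
        (Fintype.piFinset fun _ : Fin r => Icc (-(R j : ℤ)) (R j))).image (fun cd => G j cd.1 cd.2)).card ≤
          (R j) ^ r * (2 * R j + 1) ^ r := by
        refine card_image_le.trans (le_of_eq ?_)
        rw [card_product, Fintype.card_piFinset, Fintype.card_piFinset]
        simp only [Nat.card_Icc, Int.card_Icc, prod_const, card_univ, Fintype.card_fin]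
        congr 2
        omega
      have h5 : (2 * (R j : ℝ) + 1) ≤ L ^ (W + 1) := by
        have h6 : 1 ≤ L ^ W := one_le_pow₀ hL1
        have h7 : L ^ (W + 1) = L ^ W * L := pow_succ _ _
        nlinarith
      calc (((((Fintype.piFinset fun _ : Fin r => Icc 1 (R j)) ×ˢ
        (Fintype.piFinset fun _ : Fin r => Icc (-(R j : ℤ)) (R j))).image (fun cd => G j cd.1 cd.2)).card : ℕ) : ℝ) ≤
          (R j : ℝ) ^ r * (2 * (R j : ℝ) + 1) ^ r := by exact_mod_cast h4
        _ ≤ (L ^ W) ^ r * (L ^ (W + 1)) ^ r :=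
            mul_le_mul (pow_le_pow_left₀ (Nat.cast_nonneg _) hRj _) (pow_le_pow_left₀ (by positivity) h5 _)
              (by positivity) (by positivity)
        _ = L ^ ((2 * W + 1) * r) := by rw [← mul_pow, ← pow_add, ← pow_mul]; congr 1; ring
    · intro g hg n hn
      rw [hΓ, mem_image] at hg
      obtain ⟨⟨c, d⟩, hcd, rfl⟩ := hg
      rw [mem_product, Fintype.mem_piFinset, Fintype.mem_piFinset] at hcd
      rw [hG]
      simp only
      rw [norm_mul, norm_prod]
      have h4 : ∀ i : Fin r, ‖vm ((c i : ℤ) * n + d i)‖ ≤ L ^ 2 := by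
        intro i
        have h5 := mem_Icc.1 (hcd.1 i)
        have h6 := mem_Icc.1 (hcd.2 i)
        have h7 : (c i : ℝ) ≤ lam j := by
          have : (c i : ℝ) ≤ R j := by exact_mod_cast h5.2
          linarith
        have h8 : ((d i : ℤ) : ℝ) ≤ lam j := by
          have : ((d i : ℤ) : ℝ) ≤ ((R j : ℤ) : ℝ) := by exact_mod_cast h6.2
          push_cast at this
          linarith
        have h9 : (n : ℝ) ≤ lam j ^ 2 := by
          refine hn.trans ?_
          have hB0 : (0:ℝ) ≤ B := Nat.cast_nonneg _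
          nlinarith
        have h10 : ((((c i : ℤ) * n + d i : ℤ)) : ℝ) ≤ lam j ^ 4 := by
          push_cast
          have hc0 : (0:ℝ) ≤ c i := Nat.cast_nonneg _
          have h11 : (c i : ℝ) * n ≤ lam j * lam j ^ 2 := mul_le_mul h7 h9 (Nat.cast_nonneg _) hl0.le
          have h12 : 0 < lam j ^ 3 := by positivity
          have h13 : lam j ≤ lam j ^ 3 := by
            calc lam j = lam j ^ 1 := (pow_one _).symm
              _ ≤ lam j ^ 3 := pow_le_pow_right₀ (by linarith) (by norm_num)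
          calc (c i : ℝ) * n + (d i : ℝ) ≤ lam j ^ 3 + lam j ^ 3 := by
                have : lam j * lam j ^ 2 = lam j ^ 3 := by ring
                linarith
            _ ≤ lam j * lam j ^ 3 := by nlinarith
            _ = lam j ^ 4 := by ring
        refine (norm_vm_le _ (lam j ^ 4) (one_le_pow₀ (by linarith)) h10).trans ?_
        rw [Real.log_pow, ← hL]
        push_cast
        nlinarith
      calc ‖w j n‖ * ∏ i : Fin r, ‖vm ((c i : ℤ) * n + d i)‖ ≤ 1 * ∏ _i : Fin r, L ^ 2 :=
            mul_le_mul (hw j n) (prod_le_prod (fun i _ => norm_nonneg _) fun i _ => h4 i)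
              (prod_nonneg fun i _ => norm_nonneg _) (by norm_num)
        _ = L ^ (2 * r) := by rw [prod_const, card_univ, Fintype.card_fin, one_mul, ← pow_mul])
  filter_upwards [key] with x hx
  filter_upwards [hx, hlamt.eventually_ge_atTop 1] with j hj hl1 a X b c d h1 h2 h3 h4 h5 h6
  have hlog : 0 ≤ Real.log (lam j) := Real.log_nonneg hl1
  have hg : G j c d ∈ Γ j := by
    rw [hΓ, mem_image]
    refine ⟨(c, d), ?_, rfl⟩
    rw [mem_product, Fintype.mem_piFinset, Fintype.mem_piFinset]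
    constructor
    · intro i
      rw [mem_Icc, hR]
      exact ⟨(h4 i).1, Nat.le_floor (h4 i).2⟩
    · intro i
      have h7 : ((d i).natAbs : ℝ) ≤ Real.log (lam j) ^ W := by
        have := h5 i
        rw [Nat.cast_natAbs, Int.cast_abs]
        exact this
      have h8 : (d i).natAbs ≤ ⌊Real.log (lam j) ^ W⌋₊ := Nat.le_floor h7
      have h9 : R j = ⌊Real.log (lam j) ^ W⌋₊ := by rw [hR]
      show d i ∈ Icc (-(R j : ℤ)) (R j)
      rw [mem_Icc, h9]
      omega
  have h7 := hj _ hg a X b h1 h2 h3 h6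
  refine le_trans (le_of_eq ?_) h7
  congr 1
  apply sum_congr rfl
  intro n _
  rw [hG]
  simp only
  have e : mu ((a : ℤ) * n + b) = Pool.Agent.H373R2.T7.exI Pool.Agent.H373R2.T7.muC ((a : ℤ) * n + b) := rfl
  rw [e]
  ring

end Pool.Agent.Results.MP_0bfb7f_nt.FourierDecay
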