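import Pool.Agent.U828.KD.ChowZT
import Pool.Agent.H373R2.T7.SupLiou

/-!
# The Möbius function and shifted primes, for all the shifts near almost all values of an arbitrary function of higher
convexity

Fix `r ≥ 2`. Let `f` be ANY function on `{1, ..., x}`, `x ≥ N ^ (1 / r + η)`, with values in `[-B N, B N]`, whose differences
of order `r` are all at least `N / (x ^ r log ^ C N)`, or all at most the negative of this number. For all but
`x / log ^ U N` of the `m ≤ x` the question has a positive answer, with savings of any power of the logarithm, for ALL the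
shifts `h` near `f m`: for all the integers `h` with `|h - f m| ≤ log ^ C N`,

  `|∑ n ≤ X, g n * μ (a n + h) Λ (c n + d)| ≤ N / log ^ U N`

for all the coefficients `a, c ≤ log ^ C N`, all the integers `|d| ≤ log ^ C N` and all `X ≤ B N / max (a, c)`; here `g` is an
arbitrary weight bounded by `1`. With `a = c = 1`, `d = 0` and `g = 1` this is the sum `S_h` of the question, with the
shift `h` in place of `1`.

For `r = 2` these are the strictly convex (or concave) functions; for larger `r` there are only `N ^ (1 / r + η)` points, so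
the shifts run through neighbourhoods of arbitrarily sparse sets (any power `N ^ θ`, `θ > 0`), and no regularity is assumed
besides the sign and the size of the `r`-th differences. The earlier results of this problem treat automatic sets, smooth
numbers and changes of few digits.

Proof: the energy theorem `Pool.Agent.U828.KD.energy_r` (helper828: an `r`-th derivative test for arbitrary sequences, and
Fejér kernels), the first moment `Pool.Agent.H373R2.T7.few_e` of the starting files over families of nearly minimal energy,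
and `Pool.Agent.U828.KD.joint` (helper828).
-/

set_option autoImplicit false

namespace Pool.Agent.Results.MP_0bfb7f_nt.HigherConvexShifts

open Finset

/-- The Möbius function on the integers, `0` at the integers `k ≤ 0`. -/
noncomputable def mu (k : ℤ) : ℂ := if 1 ≤ k then ((ArithmeticFunction.moebius k.toNat : ℤ) : ℂ) else 0

/-- The von Mangoldt function on the integers, `0` at the integers `k ≤ 0`. -/
noncomputable def vm (k : ℤ) : ℂ := ((ArithmeticFunction.vonMangoldt k.toNat : ℝ) : ℂ)

/-- The differences of order `r` of `f` on `{1, ..., x}` are all at least `κ`, or all at most `-κ`. Here `fwdDiff 1 f m`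
is the difference `f (m + 1) - f m`. -/
def Bent (r x : ℕ) (f : ℕ → ℝ) (κ : ℝ) : Prop :=
  (∀ m, 1 ≤ m → m + r ≤ x → κ ≤ (fwdDiff 1)^[r] f m) ∨ (∀ m, 1 ≤ m → m + r ≤ x → (fwdDiff 1)^[r] f m ≤ -κ)

/-- For all the integers `h` with `|h - f m| ≤ log ^ C N` (and `|h| ≤ B N`), all `1 ≤ a, c ≤ log ^ C N`, all the integers
`d` with `|d| ≤ log ^ C N` and all `X` with `a X, c X ≤ B N`, the sum of `g n * μ (a n + h) * Λ (c n + d)` over `n ≤ X` is at
most `N / log ^ U N`. -/
def Small (B C U N : ℕ) (g : ℕ → ℂ) (f : ℕ → ℝ) (m : ℕ) : Prop :=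
  ∀ (a c : ℕ) (h d : ℤ) (X : ℕ), |(h : ℝ) - f m| ≤ Real.log N ^ C → |(h : ℝ)| ≤ B * N → 1 ≤ a → 1 ≤ c →
    (a : ℝ) ≤ Real.log N ^ C → (c : ℝ) ≤ Real.log N ^ C → |(d : ℝ)| ≤ Real.log N ^ C → a * X ≤ B * N → c * X ≤ B * N →
    ‖∑ n ∈ Icc 1 X, g n * (mu ((a : ℤ) * n + h) * vm ((c : ℤ) * n + d))‖ ≤ N / Real.log N ^ U

open Classical in
/-- Let `r ≥ 2`, `B`, `C`, `U` and `η > 0` be fixed. For all large `N`, all weights `g` bounded by `1`, all
`x ≥ N ^ (1 / r + η)` and all functions `f : {1, ..., x} → [-B N, B N]` whose differences of order `r` are all at least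
`N / (x ^ r log ^ C N)`, or all at most the negative of this number, all the `m ≤ x` but at most `x / log ^ U N` satisfy
`Small B C U N g f m`. -/
theorem result (r : ℕ) (hr : 2 ≤ r) (B C U : ℕ) (η : ℝ) (hη : 0 < η) :
    ∃ N₀ : ℕ, ∀ N : ℕ, N₀ ≤ N → ∀ g : ℕ → ℂ, (∀ n, ‖g n‖ ≤ 1) → ∀ x : ℕ, (N : ℝ) ^ (1 / (r : ℝ) + η) ≤ x →
    ∀ f : ℕ → ℝ, (∀ m ∈ Icc 1 x, |f m| ≤ B * N) → Bent r x f (N / ((x : ℝ) ^ r * Real.log N ^ C)) →
    (((Icc 1 x).filter (fun m => ¬ Small B C U N g f m)).card : ℝ) ≤ x / Real.log N ^ U := by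
  obtain ⟨N₀, h0⟩ := Pool.Agent.U828.KD.joint r hr Pool.Agent.H373R2.T7.muC (fun n => by
    unfold Pool.Agent.H373R2.T7.muC
    rw [Complex.norm_intCast]
    exact_mod_cast ArithmeticFunction.abs_moebius_le_one) Pool.Agent.H373R2.T7.sup_muC 1 B C U U η hη
  refine ⟨N₀, fun N hN g hg x hx f hf hb => ?_⟩
  obtain ⟨y, hy⟩ : ∃ y : Fin 2 → ℕ, y = fun i => if i = 0 then x else 1 := ⟨_, rfl⟩
  obtain ⟨F, hF⟩ : ∃ F : Fin 2 → ℕ → ℝ, F = fun i m => if i = 0 then f m else 0 := ⟨_, rfl⟩
  have hy0 : y 0 = x := by rw [hy]; rfl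
  have hy1 : y 1 = 1 := by rw [hy]; rfl
  have hF0 : F 0 = f := by rw [hF]; rfl
  have hF1 : ∀ m, F 1 m = 0 := fun m => by rw [hF]; rfl
  have key := h0 N hN g hg (fun _ => vm) (fun _ => Or.inr rfl) y (by rw [hy0]; exact hx) F (by
      intro i m hm
      fin_cases i
      · change |F 0 m| ≤ _
        rw [hF0]
        change m ∈ Icc 1 (y 0) at hm
        rw [hy0] at hm
        exact hf m hm
      · change |F 1 m| ≤ _
        rw [hF1, abs_zero]
        positivity) (by rw [hF0, hy0]; exact hb)
    (((Icc 1 x).filter (fun m => ¬ Small B C U N g f m)).image (fun m => fun i : Fin 2 => if i = 0 then m else 1)) (by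
      intro m hm
      rw [mem_image] at hm
      obtain ⟨m', hm', rfl⟩ := hm
      rw [Fintype.mem_piFinset]
      intro i
      fin_cases i
      · change m' ∈ Icc 1 (y 0)
        rw [hy0]
        exact (mem_filter.1 hm').1
      · change 1 ∈ Icc 1 (y 1)
        rw [hy1]
        simp) (by
      intro m hm
      rw [mem_image] at hm
      obtain ⟨m', hm', rfl⟩ := hm
      have h1 := (mem_filter.1 hm').2
      unfold Small at h1
      push Not at h1
      obtain ⟨a, c, h, d, X, h2, h3, h4, h5, h6, h7, h8, h9, h10, h11⟩ := h1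
      refine ⟨fun i => if i = 0 then a else c, fun i => if i = 0 then h else d, X, ?_, h3, ?_, ?_, ?_⟩
      · intro i
        fin_cases i
        · exact ⟨h4, h6⟩
        · exact ⟨h5, h7⟩
      · intro i
        fin_cases i
        · change |(h : ℝ) - F 0 m'| ≤ _
          rw [hF0]
          exact h2
        · change |(d : ℝ) - F 1 1| ≤ _
          rw [hF1, sub_zero]
          exact h8
      · intro i
        fin_cases i
        · exact h9
        · exact h10
      · refine lt_of_lt_of_le h11 (le_of_eq ?_)
        congr 1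
        apply sum_congr rfl
        intro n _
        rw [Fin.prod_univ_one]
        rfl)
  rw [card_image_of_injective, Fin.prod_univ_two, hy0, hy1, Nat.cast_one, mul_one] at key
  · exact key
  · intro m m' hmm
    have := congrFun hmm 0
    simpa using this

end Pool.Agent.Results.MP_0bfb7f_nt.HigherConvexShifts
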