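import Pool.Agent.U308.TL.Corr
import Pool.Agent.Results.MP_0bfb7f_nt.SmoothShifts

/-!
# The Möbius function and shifted primes, for all the shifts near almost all very smooth numbers

Definitions used: from the starting file `Pool.Agent.Results.MP_0bfb7f_nt.SmoothShifts`: `mob`: the Möbius function on the integers,
`0` at the integers `m ≤ 0`; `Small X ε α a h θ z`: `|∑ n ≤ x, θ l n * (∏ i, Λ (a l i * n + h l i)) * μ (α l * n + z)| ≤ ε` for
all `l` and all `x ≤ X / α l`; `composedOf P N`: the integers `1 ≤ v ≤ N` all of whose prime factors belong to `P`;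
`smooth y N`: the `y`-smooth integers `1 ≤ v ≤ N`.

Method (helper308). The starting result `SmoothShifts` has the same assertion for `y ≥ log ^ (2 + δ) N` (and for sets
`P` with at least `y ^ (1 / 2 + δ) log N` elements). Below `log ^ 2 N` the exponential sum over the integers composed of primes
from `P` cannot be bounded in the same way. New here is a weight `w(v)`, the number of the representations `v = m₁ m₂ u`, where
`m₁` and `m₂` are products of `h` different primes from one dyadic class of `P` with more elements than the square root of the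
primes, and `u` is composed of primes from `P`: the weighted exponential sum is small except near few rational numbers with
small denominators (`Pool.Agent.U308.SH.chain`, `Pool.Agent.U308.SH.bilin`, `Pool.Agent.U308.SG.exp_rr`), and `w(v)` is at least
`1 / log N` of its mean value for almost all `v` (`Pool.Agent.U308.SG.structB`, `Pool.Agent.U308.SG.dom2`), so that a property
which holds with the weight `w` for almost all `v` holds for almost all `v` (`Pool.Agent.U308.TL.sm_tlaw2`, `dom_le`). The
second moment argument for correlations of the Möbius function is from the starting files.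
-/

set_option autoImplicit false

namespace Pool.Agent.Results.MP_0bfb7f_nt.VerySmoothShifts

open Finset
open Pool.Agent.Results.MP_0bfb7f_nt.SmoothShifts (mob composedOf smooth vm_log)

open Classical in
/-- Let `s`, `A`, `T`, `U`, `K`, `B`, the integer `κ ≠ 0` and `δ > 0` be fixed, let `N` be large, `y ≤ log ^ K N`, and let
`c` be an arbitrary integer with `|c| ≤ B N`. For each of at most `log ^ T N` indices `l` let `α l ≥ 1`, let
`a l i n + h l i` for `i < s` be arbitrary linear forms with non-negative coefficients `≤ N ^ B`, and let `θ l : ℕ → ℂ` be an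
arbitrary function bounded by `1` (for example one index, `α = 1`, `s = 1`, `Λ(n)` and `θ = 1`).

(1) Let `P` be an arbitrary set of primes which are at most `y`, with at least `y ^ (1 / 2 + δ)` and at least `log ^ (1 + δ) N` elements. Then
for all the integers `v ≤ N` composed of primes from `P`, up to a proportion of at most `1 / log ^ U N` of them, ALL the
integers `z` with `|z - (c + κ v)| ≤ log ^ A N` have the following property:
`|∑ n ≤ x, θ l n * (∏ i, Λ (a l i * n + h l i)) * μ (α l * n + z)| ≤ N / log ^ U N` for all `l` and all `x ≤ B N / α l`.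
(There can be fewer than `N ^ δ` such integers `v`.)

(2) In particular this holds for all the `y`-smooth integers `v ≤ N`, up to a proportion of at most `1 / log ^ U N` of them,
if `y ≥ log ^ (1 + δ) N`. -/
theorem result (s A T U K B : ℕ) (κ : ℤ) (hκ : κ ≠ 0) (δ : ℝ) (hδ : 0 < δ) :
    ∃ N₀ : ℕ, ∀ N, N₀ ≤ N → ∀ y : ℕ, (y : ℝ) ≤ Real.log N ^ K → ∀ c : ℤ, |c| ≤ B * N →
      ∀ L : ℕ, (L : ℝ) ≤ Real.log N ^ T → ∀ (α : Fin L → ℕ) (a h : Fin L → Fin s → ℕ) (θ : Fin L → ℕ → ℂ),
        (∀ l, 1 ≤ α l) → (∀ l i, a l i ≤ N ^ B ∧ h l i ≤ N ^ B) → (∀ l n, ‖θ l n‖ ≤ 1) →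
      (∀ P : Finset ℕ, (∀ p ∈ P, p.Prime ∧ p ≤ y) → (y : ℝ) ^ (1 / 2 + δ) ≤ P.card → Real.log N ^ (1 + δ) ≤ P.card →
        (((composedOf P N).filter fun v : ℕ => ∃ z : ℤ, |((z - (c + κ * v) : ℤ) : ℝ)| ≤ Real.log N ^ A ∧
          ¬ SmoothShifts.Small (B * N) (N / Real.log N ^ U) α a h θ z).card : ℝ) ≤ ((composedOf P N).card : ℝ) / Real.log N ^ U) ∧
      (Real.log N ^ (1 + δ) ≤ y →
        (((smooth y N).filter fun v : ℕ => ∃ z : ℤ, |((z - (c + κ * v) : ℤ) : ℝ)| ≤ Real.log N ^ A ∧
          ¬ SmoothShifts.Small (B * N) (N / Real.log N ^ U) α a h θ z).card : ℝ) ≤ ((smooth y N).card : ℝ) / Real.log N ^ U) := by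
  obtain ⟨N₁, h1⟩ := vm_log B
  obtain ⟨N₂, h2⟩ := Pool.Agent.H373R2.T7.ev_L' 1
  obtain ⟨N₀, h0⟩ := Pool.Agent.U308.TL.both2 δ hδ K U _ (Pool.Agent.U308.TL.sm_corr2 κ hκ K B A (T + 2 * s) U
    Pool.Agent.H373R2.T7.muR Pool.Agent.Y885.fine_mu)
  refine ⟨N₀ + N₁ + N₂, fun N hN y hy' c hc L hL α a h θ hα hah hθ => ?_⟩
  have hL1 := h2 N (by omega)
  refine h0 N (by omega) y hy' (fun v : ℕ => ∃ z : ℤ, |((z - (c + κ * v) : ℤ) : ℝ)| ≤ Real.log N ^ A ∧
          ¬ SmoothShifts.Small (B * N) (N / Real.log N ^ U) α a h θ z) (fun v => inferInstance)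
    ⟨c, L, α, fun l n => θ l n * ∏ i, (ArithmeticFunction.vonMangoldt (a l i * n + h l i) : ℂ), hc,
      hL.trans (pow_le_pow_right₀ hL1 (by omega)), hα, fun l n hn hnB => ?_, fun v hv => ?_⟩
  · have hnB' : n ≤ B * N := (Nat.le_mul_of_pos_left n (by have := hα l; omega)).trans hnB
    rw [norm_mul, norm_prod]
    have e1 : ∏ i, ‖(ArithmeticFunction.vonMangoldt (a l i * n + h l i) : ℂ)‖ ≤ ∏ _i : Fin s, Real.log N ^ 2 := by
      apply prod_le_prod (fun _ _ => norm_nonneg _)
      intro i _
      rw [Complex.norm_real, Real.norm_eq_abs]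
      exact h1 N (by omega) _ _ n (hah _ i).1 (hah _ i).2 hnB'
    rw [prod_const, card_univ, Fintype.card_fin, ← pow_mul] at e1
    calc _ ≤ 1 * Real.log N ^ (2 * s) := mul_le_mul (hθ _ _) e1 (prod_nonneg fun _ _ => norm_nonneg _) zero_le_one
      _ = Real.log N ^ (2 * s) := one_mul _
      _ ≤ _ := pow_le_pow_right₀ hL1 (by omega)
  · obtain ⟨z, hz, hbad⟩ := hv
    have e0 : c + κ * (v : ℤ) + (z - (c + κ * v)) = z := by ring
    refine ⟨z - (c + κ * v), hz, ?_⟩
    rw [e0]
    unfold SmoothShifts.Small at hbad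
    push Not at hbad
    obtain ⟨l, x, hx, hlt⟩ := hbad
    refine ⟨l, x, hx, lt_of_lt_of_eq hlt ?_⟩
    congr 1

end Pool.Agent.Results.MP_0bfb7f_nt.VerySmoothShifts
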