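import Pool.Agent.U847.WT
import Pool.Agent.U847.MV
import Pool.Agent.U847.GD

/-!
# The Möbius function and products of the von Mangoldt function at all the multiples of several walk integers

Sums of products of values of `μ` and `Λ` at linear forms `a n + h q`, each with its own coefficient `a`, where the `h q` are
the multiples, `h ≤ k ^ J`, of the integers `q` near `c + κ v`, for almost all the integers `v` whose `k` digits are the labels
of the walks between two vertices of a graph, for example of the Cayley graph of a group: then these are the integers whose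
digits spell a given element of the group. Such a set can contain as few as `N ^ ε` integers below `N`, and in general it is
not automatic.

Method: the exponential sum over the walks is dominated by the iterates of the adjacency operator of the graph, which
loses a constant factor at every digit where the frequency is not extremal (starting files, `Pool.Agent.N625.GW`). New
here: a frequency `θ` at which the exponential sum over the multiples `h v` is large differs little from a fraction with a
small denominator except at `O(log k)` of the digits, for all `h ≤ k ^ J` (`Pool.Agent.U847.TG`, `Pool.Agent.U847.TI`), and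
products of values of several functions, only one of which must be orthogonal to the additive characters (the others can be
unbounded), at the multiples of several integers (`Pool.Agent.U847.MV`). The correlations of one such factor with arbitrary
weights are from the starting files (`Pool.Agent.N625.PT.t_off`).
-/

set_option autoImplicit false

namespace Pool.Agent.Results.MP_0bfb7f_nt.WalkTuples

open Finset

/-- The Möbius function on the integers, `0` at the integers `k ≤ 0`. -/
noncomputable def mu (k : ℤ) : ℂ := if 1 ≤ k then ((ArithmeticFunction.moebius k.toNat : ℤ) : ℂ) else 0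

/-- The von Mangoldt function on the integers, `0` at the integers `k ≤ 0`. -/
noncomputable def vm (k : ℤ) : ℂ := ((ArithmeticFunction.vonMangoldt k.toNat : ℝ) : ℂ)

/-- The factor of the kind `e`: the constant `1` (no factor) for `e = 0`, `μ` for `e = 1` and `Λ` for `e = 2`. -/
noncomputable def factor (e : Fin 3) (k : ℤ) : ℂ := if e = 0 then 1 else if e = 1 then mu k else vm k

/-- The digits `a < b` act on the set `X` of the vertices: an edge with the label `a` leads from `x` to `y` if
`δ x a = some y` (at most one edge with the label `a` starts at `x`). The number of the edges from `x` to `y` equals the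
number of the edges from `y` to `x`, and at least two edges start at every vertex. The graph may be infinite. -/
structure Graph {X : Type} (b : ℕ) (δ : X → ℕ → Option X) : Prop where
  symm : ∀ x y : X, {a : ℕ | a < b ∧ δ x a = some y}.ncard = {a : ℕ | a < b ∧ δ y a = some x}.ncard
  two : ∀ x : X, ∃ a a' : ℕ, a < a' ∧ a' < b ∧ (δ x a).isSome ∧ (δ x a').isSome

open Classical in
/-- The integers `v < b ^ k` whose `k` digits in base `b`, from the most significant to the least significant one (the
digit number `i`, `0 ≤ i < k`, from the left is `v / b ^ (k - 1 - i) % b`), are the labels of a walk from `x` to `y`. -/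
noncomputable def walks {X : Type} (b : ℕ) (δ : X → ℕ → Option X) (k : ℕ) (x y : X) : Finset ℕ :=
  (range (b ^ k)).filter fun v =>
    ((List.range k).map fun i => v / b ^ (k - 1 - i) % b).foldl (fun s a => s.bind fun z => δ z a) (some x) = some y

lemma mu_exI (m : ℤ) : mu m = Pool.Agent.H373R2.T7.exI (fun n => ((Pool.Agent.H373R2.T7.muR n : ℝ) : ℂ)) m := by
  unfold mu Pool.Agent.H373R2.T7.exI Pool.Agent.H373R2.T7.muR
  split_ifs <;> simp

lemma mu_norm (m : ℤ) : ‖mu m‖ ≤ 1 := by
  rw [mu_exI]
  exact Pool.Agent.W93.LM.exI_norm _ Pool.Agent.Y885.fine_mu.1.1 _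

/-- the factors, with the function `Λ` replaced by zero at the large integers -/
noncomputable def Gk (Z : ℕ) (e : Fin 3) (k : ℤ) : ℂ := if e = 0 then 1 else if e = 1 then mu k else if k.toNat ≤ Z then vm k else 0

lemma Gk_eq {Z : ℕ} {e : Fin 3} {k : ℤ} (h : k ≤ Z) : Gk Z e k = factor e k := by
  unfold Gk factor
  have : k.toNat ≤ Z := by omega
  rw [if_pos this]

lemma Gk_norm {Z : ℕ} {r : ℝ} (h1 : 1 ≤ r) (h2 : Real.log Z ≤ r) (e : Fin 3) (k : ℤ) : ‖Gk Z e k‖ ≤ r := by
  unfold Gk
  split_ifs with q1 q2 q3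
  · rw [norm_one]
    exact h1
  · exact (mu_norm k).trans h1
  · unfold vm
    rw [Complex.norm_real, Real.norm_eq_abs, abs_of_nonneg ArithmeticFunction.vonMangoldt_nonneg]
    refine ArithmeticFunction.vonMangoldt_le_log.trans (le_trans ?_ h2)
    rcases Nat.eq_zero_or_pos k.toNat with h0 | h0
    · rw [h0, Nat.cast_zero, Real.log_zero]
      rcases Nat.eq_zero_or_pos Z with hZ | hZ
      · rw [hZ, Nat.cast_zero, Real.log_zero]
      · exact Real.log_nonneg (by exact_mod_cast hZ)
    · exact Real.log_le_log (by exact_mod_cast h0) (by exact_mod_cast q3)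
  · rw [norm_zero]
    linarith

open Classical in
/-- **The Möbius function against products of the von Mangoldt function at all the multiples of the integers given by walks.**
Let `δ i`, `i < s`, be graphs (infinite or not) whose edges are labelled with the digits in base `b`, let `x i` be a vertex of
`δ i` and let `ρ i > 0` be such that there are at most `ρ i ^ (2 n)` closed walks of the length `2 n` at `x i`, for all `n`. Let
`κ i ≠ 0`, `D`, `B`, `A`, `J`, `W` and `U` be fixed and let `k` be large. Let `y i` be vertices such that the number of the walks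
of the length `k` from `x i` to `y i` is at least `ρ i ^ k / k ^ D`, let `c i` be integers with `|c i| ≤ B b ^ k` and let at most
`k ^ A` systems of coefficients `a l i ≥ 1` and arbitrary weights `g l` with `|g l n| ≤ k ^ A` be given. Then for all the
vectors `v` of integers `v i` whose `k` digits are the labels of a walk from `x i` to `y i`, with the exception of a proportion
of at most `1 / k ^ U` of them, the following holds for ALL the integers `q i` at a distance of at most `k ^ W` from
`c i + κ i v i` and ALL the factors `1 ≤ h i ≤ k ^ J`: for all `l`, all `X` with `a l i X ≤ k ^ A b ^ k` for all `i`, and all choices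
of the functions `F i ∈ {1, μ, Λ}`, at least one of which is `μ`,
`|∑ n ≤ X, g l n ∏ i, F i (a l i n + h i q i)| ≤ b ^ k / k ^ U`.

(For a group of polynomial growth, a free group, or any group with the property of rapid decay, there are at least
`ρ ^ k / k ^ D` closed walks of every even length `k` in the Cayley graph, where `ρ` is its spectral radius.) -/
theorem result (s b : ℕ) (hb : 2 ≤ b) (V : Fin s → Type) (δ : ∀ i, V i → ℕ → Option (V i)) (hG : ∀ i, Graph b (δ i)) (x : ∀ i, V i)
    (ρ : Fin s → ℝ) (hρ : ∀ i, 0 < ρ i) (hR : ∀ i, ∀ n : ℕ, ((walks b (δ i) (2 * n) (x i) (x i)).card : ℝ) ≤ ρ i ^ (2 * n))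
    (κ : Fin s → ℤ) (hκ : ∀ i, κ i ≠ 0) (D B A J W U : ℕ) :
    ∃ k₀ : ℕ, ∀ k : ℕ, k₀ ≤ k → ∀ y : ∀ i, V i, (∀ i, ρ i ^ k / (k : ℝ) ^ D ≤ (walks b (δ i) k (x i) (y i)).card) →
      ∀ c : Fin s → ℤ, (∀ i, |c i| ≤ B * (b : ℤ) ^ k) →
      ∀ M : ℕ, M ≤ k ^ A → ∀ a : Fin M → Fin s → ℕ, (∀ l i, 1 ≤ a l i) → ∀ g : Fin M → ℕ → ℂ, (∀ l n, ‖g l n‖ ≤ (k : ℝ) ^ A) →
      (((Fintype.piFinset fun i => walks b (δ i) k (x i) (y i)).filter fun v => ¬ ∀ q : Fin s → ℤ,
        (∀ i, |q i - (c i + κ i * v i)| ≤ (k : ℤ) ^ W) → ∀ h : Fin s → ℕ, (∀ i, 1 ≤ h i ∧ h i ≤ k ^ J) →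
        ∀ l, ∀ X : ℕ, (∀ i, a l i * X ≤ k ^ A * b ^ k) → ∀ e : Fin s → Fin 3, (∃ i, e i = 1) →
          ‖∑ n ∈ Icc 1 X, g l n * ∏ i, factor (e i) (a l i * n + h i * q i)‖ ≤ (b : ℝ) ^ k / (k : ℝ) ^ U).card : ℝ) ≤
        (Fintype.piFinset fun i => walks b (δ i) k (x i) (y i)).card / (k : ℝ) ^ U := by
  have htc := fun i => Pool.Agent.U847.TI.w_tcls (b := b) (δ := δ i) ⟨(hG i).symm, (hG i).two⟩ (x i) (ρ i) (hρ i) (hR i) D (κ i) (hκ i)
  obtain ⟨k₀, hmain⟩ := Pool.Agent.U847.MV.t_multi s 3 b κ _ htc {1} (fun _ => Pool.Agent.H373R2.T7.muR)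
    (fun _ _ => Pool.Agent.Y885.fine_mu) B A J 2 W U
  obtain ⟨k1, h1⟩ := Pool.Agent.U847.GD.log_bound b hb (A + J + 3)
  obtain ⟨k2, h2⟩ := exists_nat_ge (2 * Real.log b)
  obtain ⟨k4, h4⟩ := Pool.Agent.N625.PT.pow_le_pow_digits b hb W
  refine ⟨k₀ + k1 + k2 + k4 + B + ∑ i, (κ i).natAbs + 2, fun k hk y hy c hc M hM a ha g hg => ?_⟩
  have hk1 : (1 : ℝ) ≤ k := by exact_mod_cast (by omega : 1 ≤ k)
  have hbk : 0 < b ^ k := by positivity
  refine Pool.Agent.U847.WT.w_nums hρ (by omega) hy _ (fun p hp => ?_)
  obtain ⟨Z, hZ⟩ : ∃ Z : ℕ, Z = k ^ (A + J + 3) * b ^ k := ⟨_, rfl⟩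
  have hZ1 : 1 ≤ Z := by
    rw [hZ]
    exact Nat.mul_pos (Nat.pow_pos (by omega)) hbk
  have hlog : Real.log Z ≤ (k : ℝ) ^ 2 := by
    refine (h1 k (by omega) Z hZ1 hZ.le).trans ?_
    rw [pow_two]
    apply mul_le_mul_of_nonneg_right _ (by positivity)
    refine h2.trans ?_
    exact_mod_cast (by omega : k2 ≤ k)
  refine le_trans (sum_le_sum ?_) (hmain k (by omega) (Gk Z) (Gk_norm (one_le_pow₀ hk1) hlog) (fun e he z => by
    rw [mem_singleton] at he
    subst he
    unfold Gk
    simp only [Fin.isValue, one_ne_zero, ↓reduceIte]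
    exact mu_exI z) p hp c hc M hM a g ha hg)
  intro v hv
  rw [Fintype.mem_piFinset] at hv
  have hpv : 0 ≤ ∏ i, p i (v i) := prod_nonneg fun i _ => (htc i).nonneg k _ (hp i) _
  by_cases h : ∀ q : Fin s → ℤ, (∀ i, |q i - (c i + κ i * v i)| ≤ (k : ℤ) ^ W) →
      ∀ h : Fin s → ℕ, (∀ i, 1 ≤ h i ∧ h i ≤ k ^ J) →
          ∀ e : Fin s → Fin 3, ∀ i, e i ∈ ({1} : Finset (Fin 3)) → ∀ l, ∀ X : ℕ, a l i * X ≤ k ^ A * b ^ k →
          ‖∑ n ∈ Icc 1 X, g l n * ∏ j, Gk Z (e j) (((a l j * n : ℕ) : ℤ) + h j * q j)‖ ≤ (b : ℝ) ^ k / (k : ℝ) ^ U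
  · rw [if_pos h, if_pos]
    rintro q hq h' hh l X hX e ⟨i, hi⟩
    have h3 := h q hq h' hh e i (by rw [mem_singleton]; exact hi) l X (hX i)
    refine le_trans (le_of_eq ?_) h3
    congr 1
    apply sum_congr rfl
    intro n hn
    congr 1
    apply prod_congr rfl
    intro j _
    have e1 : ((a l j * n : ℕ) : ℤ) + h' j * q j = a l j * n + h' j * q j := by push_cast; ring
    rw [e1, Gk_eq]
    have g1 : a l j * n ≤ k ^ A * b ^ k := (Nat.mul_le_mul_left _ (mem_Icc.1 hn).2).trans (hX j)
    have g2 : (a l j : ℤ) * n ≤ (k : ℤ) ^ A * (b : ℤ) ^ k := by exact_mod_cast g1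
    have g3 : |(h' j : ℤ) * q j| ≤ ((k ^ (J + 1) * b ^ k : ℕ) : ℤ) := by
      have g4 := Pool.Agent.N625.PT.multiple_size b J B W (κ j) k (k ^ (J + 1) * b ^ k) (by
          have : (κ j).natAbs ≤ ∑ i, (κ i).natAbs := single_le_sum (f := fun i => (κ i).natAbs) (fun _ _ => Nat.zero_le _) (mem_univ j)
          omega) (h4 k (by omega)) le_rfl (c j) (q j - (c j + κ j * v j)) (hc j) (hq j) (h' j) (hh j).2 (v j)
        (mem_range.1 (hv j))
      have e2 : (h' j : ℤ) * (c j + (q j - (c j + κ j * v j)) + κ j * v j) = h' j * q j := by ring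
      rwa [e2] at g4
    have g5 := (le_abs_self _).trans g3
    have g6 : k ^ A * b ^ k + k ^ (J + 1) * b ^ k ≤ Z := by
      rw [hZ]
      have q1 : k ^ A ≤ k ^ (A + J + 2) := Nat.pow_le_pow_right (by omega) (by omega)
      have q2 : k ^ (J + 1) ≤ k ^ (A + J + 2) := Nat.pow_le_pow_right (by omega) (by omega)
      calc k ^ A * b ^ k + k ^ (J + 1) * b ^ k ≤ k ^ (A + J + 2) * b ^ k + k ^ (A + J + 2) * b ^ k :=
            Nat.add_le_add (Nat.mul_le_mul_right _ q1) (Nat.mul_le_mul_right _ q2)
        _ = 2 * k ^ (A + J + 2) * b ^ k := by ring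
        _ ≤ k * k ^ (A + J + 2) * b ^ k := Nat.mul_le_mul_right _ (Nat.mul_le_mul_right _ (by omega))
        _ = k ^ (A + J + 3) * b ^ k := by ring
    have g7 : (k : ℤ) ^ A * (b : ℤ) ^ k + ((k ^ (J + 1) * b ^ k : ℕ) : ℤ) ≤ (Z : ℤ) := by exact_mod_cast g6
    linarith
  · rw [if_neg h]
    split_ifs
    · exact hpv
    · exact le_rfl

end Pool.Agent.Results.MP_0bfb7f_nt.WalkTuples
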